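import Pool.Agent.K1H29.NC.Zero
import Pool.Agent.H459R3.NS.Cor

/-!
# Rational `Θ`: the equations on the noncommutative torus contain the Navier-Stokes equations
-/

open MeasureTheory Set Filter Topology
open scoped ContDiff

namespace Pool.Agent.K1H90.NC

open H459R3.NS Pool.Agent.K1H29 Pool.Agent.K1H29.NC

variable {φ : K3 → K3 → ℝ} {f g : V → ℝ} {ν : ℝ} {v : V → V} {u : ℝ → V → V} {p : ℝ → V → ℝ}

/-! ### translations -/

lemma sp_shift (hf : SP f) (a : V) : SP (fun x => f (x + a)) :=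
  ⟨hf.smooth.comp (contDiff_id.add contDiff_const), per_shift hf a 0⟩

/-- the coefficients of a translate -/
lemma fr_shift (hf : SP f) (a : V) (k : K3) : fr (fun x => f (x + a)) k = fr f k * ee k a := by
  have hs := (rap_fr hf).summable
  have h0 : Summable (fun k => fr f k * ee k a) := summable_term hs a
  have h1 : (fun x => f (x + a)) = fun y => (∑' l, (fr f l * ee l a) * Pool.Agent.H356R3.NS.ex l y).re := by
    funext y
    have h2 := S_fr hf (y + a)
    unfold S at h2
    have h3 : ∑' l, (fr f l * ee l a) * Pool.Agent.H356R3.NS.ex l y = (f (y + a) : ℂ) := by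
      rw [← h2]
      refine tsum_congr fun l => ?_
      rw [ee_add, ← SH.ee_eq_ex]
      ring
    rw [h3, Complex.ofReal_re]
  have h4 := SH.four_series h0 (fun k => by
    rw [fr_star, ee_neg, star_mul', Complex.star_def]) k
  rw [← SH.four_eq_fr, h1]
  exact h4

lemma prod_shift (hf : SP f) (hg : SP g) (a x : V) :
    prod φ (fun y => f (y + a)) (fun y => g (y + a)) x = prod φ f g (x + a) := by
  rw [prod_eq_S, prod_eq_S]
  congr 1
  unfold S Ap
  refine tsum_congr fun k => ?_
  rw [ee_add, mul_comm (ee k x), ← mul_assoc]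
  congr 1
  rw [← tsum_mul_right]
  refine tsum_congr fun l => ?_
  rw [fr_shift hf, fr_shift hg, ee_split k l a]
  ring

lemma pd_shift (f : V → ℝ) (a : V) (j : Fin 3) (x : V) : pd j (fun y => f (y + a)) x = pd j f (x + a) := by
  unfold pd
  rw [fderiv_comp_add_right]

/-- translates of solutions -/
theorem sol_shift (h : Sol φ ν v u p) {a : V} (hv : ∀ x, v (x + a) = v x) :
    Sol φ ν v (fun t x => u t (x + a)) (fun t x => p t (x + a)) := by
  have hm : MapsTo (fun z : ℝ × V => ((z.1, z.2 + a) : ℝ × V)) (Ici 0 ×ˢ univ) (Ici 0 ×ˢ univ) :=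
    fun z hz => ⟨hz.1, trivial⟩
  have hc : ContDiff ℝ ∞ (fun z : ℝ × V => ((z.1, z.2 + a) : ℝ × V)) :=
    contDiff_fst.prodMk (contDiff_snd.add contDiff_const)
  refine ⟨h.smooth_u.comp hc.contDiffOn hm, h.smooth_p.comp hc.contDiffOn hm, ?_, ?_, ?_, ?_, ?_⟩
  · intro t ht x j
    rw [add_right_comm]
    exact h.periodic_u t ht _ j
  · intro t ht x j
    rw [add_right_comm]
    exact h.periodic_p t ht _ j
  · intro t ht x i
    have h1 := h.momentum t ht (x + a) i
    have e1 : ∀ j, prod φ (fun y => u t (y + a) j) (pd j fun y => u t (y + a) i) x =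
        prod φ (fun y => u t y j) (pd j fun y => u t y i) (x + a) := by
      intro j
      have hj := sp_slice h.smooth_u h.periodic_u ht j
      have hi := (sp_slice h.smooth_u h.periodic_u ht i).pd j
      rw [← prod_shift hj hi a x]
      congr 1
      funext y
      exact pd_shift (fun y => u t y i) a j y
    have e2 : ∀ j, pd j (pd j fun y => u t (y + a) i) x = pd j (pd j fun y => u t y i) (x + a) := by
      intro j
      have e3 : (pd j fun y => u t (y + a) i) = fun y => pd j (fun y => u t y i) (y + a) :=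
        funext fun y => pd_shift (fun y => u t y i) a j y
      rw [e3]
      exact pd_shift (pd j fun y => u t y i) a j x
    have e4 : pd i (fun y => p t (y + a)) x = pd i (p t) (x + a) := pd_shift (p t) a i x
    have h2 : derivWithin (fun s => u s (x + a) i) (Ici 0) t
        + ∑ j, prod φ (fun y => u t (y + a) j) (pd j fun y => u t (y + a) i) x
        = ν * ∑ j, pd j (pd j fun y => u t (y + a) i) x - pd i (fun y => p t (y + a)) x := by
      simp only [e1, e2, e4]
      exact h1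
    exact h2
  · intro t ht x
    have h1 := h.divFree t ht (x + a)
    have e1 : ∀ i, pd i (fun y => u t (y + a) i) x = pd i (fun y => u t y i) (x + a) := fun i =>
      pd_shift (fun y => u t y i) a i x
    have h2 : ∑ i, pd i (fun y => u t (y + a) i) x = 0 := by
      simp only [e1]
      exact h1
    exact h2
  · funext x
    show u 0 (x + a) = v x
    rw [h.initial]
    exact hv x

/-! ### frequencies divisible by `N` -/

/-- the translation by `1/N` in the `m`-th coordinate -/
noncomputable def sh (N : ℕ) (m : Fin 3) : V := Pi.single m ((N : ℝ)⁻¹)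

lemma ee_sh {N : ℕ} (hN : N ≠ 0) {k : K3} {m : Fin 3} (h : ee k (sh N m) = 1) : (N : ℤ) ∣ k m := by
  unfold ee sh at h
  rw [ph_single] at h
  rw [Complex.exp_eq_one_iff] at h
  obtain ⟨n, hn⟩ := h
  refine ⟨n, ?_⟩
  have h1 : (2 * Real.pi * Complex.I : ℂ) ≠ 0 := Complex.two_pi_I_ne_zero
  have h2 : (((k m : ℝ) * (N : ℝ)⁻¹ : ℝ) : ℂ) = n := by
    have h3 : (2 * Real.pi * Complex.I : ℂ) * (((k m : ℝ) * (N : ℝ)⁻¹ : ℝ) : ℂ) =
        (2 * Real.pi * Complex.I : ℂ) * n := by
      rw [hn]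
      ring
    exact mul_left_cancel₀ h1 h3
  have h4 : (k m : ℝ) * (N : ℝ)⁻¹ = n := by exact_mod_cast h2
  have h5 : (N : ℝ) ≠ 0 := by exact_mod_cast hN
  have h6 : (k m : ℝ) = N * n := by
    rw [← h4]
    field_simp
  exact_mod_cast h6

lemma fr_sh {N : ℕ} (hN : N ≠ 0) (hf : SP f) (h : ∀ m x, f (x + sh N m) = f x) {k : K3}
    (hk : fr f k ≠ 0) (m : Fin 3) : (N : ℤ) ∣ k m := by
  apply ee_sh hN
  have h1 := fr_shift hf (sh N m) k
  have h2 : (fun x => f (x + sh N m)) = f := funext (h m)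
  rw [h2] at h1
  have h3 : fr f k * (ee k (sh N m) - 1) = 0 := by linear_combination -h1
  rcases mul_eq_zero.1 h3 with h4 | h4
  · exact absurd h4 hk
  · exact sub_eq_zero.1 h4

lemma wt_one {N : ℕ} {Q : Fin 3 → ℝ} (hQ : ∀ i, ∃ m : ℤ, (N : ℝ) ^ 2 * Q i = 2 * m) {l k : K3}
    (hl : ∀ m, (N : ℤ) ∣ l m) (hk : ∀ m, (N : ℤ) ∣ k m) : NC.wt Q l k = 1 := by
  choose q hq using hQ
  choose l' hl' using hl
  choose k' hk' using hk
  unfold NC.wt
  have e : Real.pi * (Q 0 * (l 1 * k 2 - l 2 * k 1) + Q 1 * (l 2 * k 0 - l 0 * k 2) + Q 2 * (l 0 * k 1 - l 1 * k 0)) =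
      ((q 0 * (l' 1 * k' 2 - l' 2 * k' 1) + q 1 * (l' 2 * k' 0 - l' 0 * k' 2)
        + q 2 * (l' 0 * k' 1 - l' 1 * k' 0) : ℤ) : ℝ) * (2 * Real.pi) := by
    have h0 := hq 0
    have h1 := hq 1
    have h2 := hq 2
    simp only [hl', hk']
    push_cast
    linear_combination Real.pi * (l' 1 * k' 2 - l' 2 * k' 1) * h0 + Real.pi * (l' 2 * k' 0 - l' 0 * k' 2) * h1 +
      Real.pi * (l' 0 * k' 1 - l' 1 * k' 0) * h2
  rw [e]
  exact Real.cos_int_mul_two_pi _

/-- the weighted product of `1/N`-periodic functions is the product -/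
theorem prod_rat {N : ℕ} (hN : N ≠ 0) {Q : Fin 3 → ℝ} (hQ : ∀ i, ∃ m : ℤ, (N : ℝ) ^ 2 * Q i = 2 * m)
    (hf : SP f) (hg : SP g) (hf' : ∀ m x, f (x + sh N m) = f x) (hg' : ∀ m x, g (x + sh N m) = g x) (x : V) :
    prod (NC.wt Q) f g x = f x * g x := by
  rw [← prod_one (φ := fun _ _ => 1) (fun _ _ => rfl) hf hg x, prod_eq_S, prod_eq_S]
  have e : Ap (NC.wt Q) f g = Ap (fun _ _ => 1) f g := by
    funext k
    unfold Ap
    refine tsum_congr fun l => ?_
    by_cases h1 : fr f l = 0
    · rw [h1]; ring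
    by_cases h2 : fr g (k - l) = 0
    · rw [h2]; ring
    have a1 := fr_sh hN hf hf' h1
    have a2 := fr_sh hN hg hg' h2
    have a3 : ∀ m, (N : ℤ) ∣ k m := by
      intro m
      have := dvd_add (a2 m) (a1 m)
      rwa [Pi.sub_apply, sub_add_cancel] at this
    rw [wt_one hQ a1 a3]
  rw [e]

end Pool.Agent.K1H90.NC
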