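import Pool.Agent.K1H90.NC.Rat

/-!
# Rational `Θ`: the equations on the noncommutative torus contain the Navier-Stokes equations, II
-/

open MeasureTheory Set Filter Topology
open scoped ContDiff

namespace Pool.Agent.K1H90.NC

open H459R3.NS Pool.Agent.K1H29 Pool.Agent.K1H29.NC

variable {φ : K3 → K3 → ℝ} {f g : V → ℝ} {ν : ℝ} {v : V → V} {u : ℝ → V → V} {p : ℝ → V → ℝ}

/-! ### the pressure -/

lemma fderiv_zero_of_pd {f : V → ℝ} {x : V} (h : ∀ i, pd i f x = 0) : fderiv ℝ f x = 0 := by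
  ext y
  have h1 : y = ∑ i, y i • (Pi.single i 1 : V) := by
    funext j
    simp [Finset.sum_apply, Pi.single_apply]
  rw [h1, map_sum]
  simp only [map_smul, zero_apply]
  refine Finset.sum_eq_zero fun i _ => ?_
  have := h i
  unfold pd at this
  rw [this, smul_zero]

lemma per_of_grad {f : V → ℝ} (hf : SP f) {N : ℕ} (hN : N ≠ 0) (m : Fin 3)
    (h : ∀ i x, pd i f (x + sh N m) = pd i f x) (x : V) : f (x + sh N m) = f x := by
  have hd : Differentiable ℝ f := hf.smooth.differentiable (by norm_cast)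
  have hg : ∀ y, fderiv ℝ (fun z => f (z + sh N m) - f z) y = 0 := by
    intro y
    apply fderiv_zero_of_pd
    intro i
    have h1 : HasFDerivAt (fun z => f (z + sh N m)) (fderiv ℝ f (y + sh N m)) y := by
      have h0 : HasFDerivAt (fun z : V => z + sh N m) (ContinuousLinearMap.id ℝ V) y :=
        (hasFDerivAt_id y).add_const _
      have h00 := HasFDerivAt.comp y (hd (y + sh N m)).hasFDerivAt h0
      rw [ContinuousLinearMap.comp_id] at h00
      exact h00
    have h2 := h1.sub (hd y).hasFDerivAt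
    have h3 : fderiv ℝ (fun z => f (z + sh N m) - f z) y = fderiv ℝ f (y + sh N m) - fderiv ℝ f y := h2.fderiv
    unfold pd
    rw [h3, sub_apply]
    have h4 := h i y
    unfold pd at h4
    rw [h4, sub_self]
  have hdg : Differentiable ℝ (fun z => f (z + sh N m) - f z) :=
    (hd.comp (differentiable_id.add_const _)).sub hd
  have hc : ∀ y, f (y + sh N m) - f y = f (x + sh N m) - f x := fun y =>
    is_const_of_fderiv_eq_zero hdg hg y x
  set c : ℝ := f (x + sh N m) - f x with hcdef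
  have hn : ∀ n : ℕ, f (x + (n : ℝ) • sh N m) = f x + n * c := by
    intro n
    induction n with
    | zero => simp
    | succ n ih =>
      have h1 := hc (x + (n : ℝ) • sh N m)
      have h2 : x + ((n + 1 : ℕ) : ℝ) • sh N m = x + (n : ℝ) • sh N m + sh N m := by
        push_cast
        rw [add_smul, one_smul, add_assoc]
      rw [h2]
      push_cast
      linarith
  have h1 := hn N
  have hN' : (N : ℝ) ≠ 0 := by exact_mod_cast hN
  have h2 : (N : ℝ) • sh N m = Pi.single m 1 := by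
    unfold sh
    rw [← Pi.single_smul, smul_eq_mul, mul_inv_cancel₀ hN']
  rw [h2, hf.per m x] at h1
  have h3 : (N : ℝ) * c = 0 := by linarith
  have h4 : c = 0 := (mul_eq_zero.1 h3).resolve_left hN'
  rw [hcdef] at h4
  linarith

/-! ### the solution with the weights of `Q` for a datum of period `1/N` -/

/-- the solution solves the Navier-Stokes equations, with period `1/N` -/
theorem sol_rat {N : ℕ} (hN : N ≠ 0) {Q : Fin 3 → ℝ} (hQ : ∀ i, ∃ m : ℤ, (N : ℝ) ^ 2 * Q i = 2 * m)
    (hν : 0 < ν) (h : Sol (NC.wt Q) ν v u p) (hv : ∀ m x, v (x + sh N m) = v x) :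
    SolNS ν v u p ∧ (∀ t, 0 ≤ t → ∀ m x, u t (x + sh N m) = u t x) ∧
      ∀ t, 0 ≤ t → ∀ m x, p t (x + sh N m) = p t x := by
  have hu : ∀ t, 0 ≤ t → ∀ m x, u t (x + sh N m) = u t x := by
    intro t ht m x
    have h1 := unique (wt_Wt Q) hν (sol_shift h (hv m)) h ht
    exact congrFun h1 x
  have hpdu : ∀ t, 0 ≤ t → ∀ i j m x, pd j (fun y => u t y i) (x + sh N m) = pd j (fun y => u t y i) x := by
    intro t ht i j m x
    rw [← pd_shift]
    congr 1
    funext y
    exact congrFun (hu t ht m y) i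
  have hppu : ∀ t, 0 ≤ t → ∀ i j m x, pd j (pd j fun y => u t y i) (x + sh N m) =
      pd j (pd j fun y => u t y i) x := by
    intro t ht i j m x
    rw [← pd_shift]
    congr 1
    funext y
    exact hpdu t ht i j m y
  have hNS : SolNS ν v u p := by
    refine ⟨h.smooth_u, h.smooth_p, h.periodic_u, h.periodic_p, fun t ht x i => ?_, h.divFree, h.initial⟩
    refine Eq.trans ?_ (h.momentum t ht x i)
    congr 1
    refine Finset.sum_congr rfl fun j _ => ?_
    exact (prod_rat hN hQ (sp_slice h.smooth_u h.periodic_u ht j)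
      ((sp_slice h.smooth_u h.periodic_u ht i).pd j) (fun m x => congrFun (hu t ht m x) j)
      (fun m x => hpdu t ht i j m x) x).symm
  refine ⟨hNS, hu, fun t ht m x => ?_⟩
  have hsp : SP (p t) := by
    have h1 : ContDiffOn ℝ ∞ (fun z : ℝ × V => p z.1 z.2) (Ico 0 (t + 1) ×ˢ univ) :=
      h.smooth_p.mono (prod_mono (fun s hs => hs.1) subset_rfl)
    exact ⟨contDiff_slice h1 ⟨ht, by linarith⟩, fun j x => h.periodic_p t ht x j⟩
  refine per_of_grad hsp hN m (fun i y => ?_) x
  have h1 := hNS.momentum t ht (y + sh N m) i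
  have h2 := hNS.momentum t ht y i
  have e1 : derivWithin (fun s => u s (y + sh N m) i) (Ici 0) t = derivWithin (fun s => u s y i) (Ici 0) t := by
    refine derivWithin_congr (fun s hs => ?_) ?_
    · exact congrFun (hu s hs m y) i
    · exact congrFun (hu t ht m y) i
  have e2 : ∀ j, u t (y + sh N m) j = u t y j := fun j => congrFun (hu t ht m y) j
  simp only [e1, e2, hpdu t ht, hppu t ht] at h1
  linarith

/-! ### scaling -/

lemma pd_scale {f : V → ℝ} (hf : Differentiable ℝ f) (b c : ℝ) (j : Fin 3) (x : V) :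
    pd j (fun y => b * f (c • y)) x = b * c * pd j f (c • x) := by
  have h1 : HasFDerivAt (fun y : V => c • y) (c • ContinuousLinearMap.id ℝ V) x :=
    (hasFDerivAt_id x).const_smul c
  have h2 : HasFDerivAt (fun y => f (c • y)) ((fderiv ℝ f (c • x)).comp (c • ContinuousLinearMap.id ℝ V)) x :=
    HasFDerivAt.comp x (hf (c • x)).hasFDerivAt h1
  have h3 := (h2.const_mul b).fderiv
  unfold pd
  rw [h3]
  simp only [smul_apply, ContinuousLinearMap.comp_apply, ContinuousLinearMap.id_apply,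
    map_smul, smul_eq_mul]
  ring

/-- the scaling `u(c² t, c x) c`, with `c = 1/N` -/
theorem sol_scale {N : ℕ} (hN : N ≠ 0) (h : SolNS ν v u p)
    (hu : ∀ t, 0 ≤ t → ∀ m x, u t (x + sh N m) = u t x)
    (hp : ∀ t, 0 ≤ t → ∀ m x, p t (x + sh N m) = p t x) :
    SolNS ν (fun x => (N : ℝ)⁻¹ • v ((N : ℝ)⁻¹ • x))
      (fun t x => (N : ℝ)⁻¹ • u (((N : ℝ)⁻¹) ^ 2 * t) ((N : ℝ)⁻¹ • x))
      (fun t x => ((N : ℝ)⁻¹) ^ 2 * p (((N : ℝ)⁻¹) ^ 2 * t) ((N : ℝ)⁻¹ • x)) := by
  set c : ℝ := (N : ℝ)⁻¹ with hc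
  have hc0 : 0 < c := by
    rw [hc]
    have : 0 < (N : ℝ) := by exact_mod_cast Nat.pos_of_ne_zero hN
    positivity
  have hct : ∀ {t : ℝ}, 0 ≤ t → 0 ≤ c ^ 2 * t := fun ht => by positivity
  have hm : MapsTo (fun z : ℝ × V => ((c ^ 2 * z.1, c • z.2) : ℝ × V)) (Ici 0 ×ˢ univ) (Ici 0 ×ˢ univ) :=
    fun z hz => ⟨hct hz.1, trivial⟩
  have hcd : ContDiff ℝ ∞ (fun z : ℝ × V => ((c ^ 2 * z.1, c • z.2) : ℝ × V)) :=
    (contDiff_const.mul contDiff_fst).prodMk (contDiff_snd.const_smul c)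
  have hs : ∀ (m : Fin 3) (x : V), c • (x + Pi.single m 1) = c • x + sh N m := by
    intro m x
    rw [smul_add]
    unfold sh
    rw [← Pi.single_smul, smul_eq_mul, mul_one]
  have spu : ∀ {t : ℝ}, 0 ≤ t → ∀ i, SP (fun x => u t x i) := fun ht i =>
    sp_slice h.smooth_u h.periodic_u ht i
  have spp : ∀ {t : ℝ}, 0 ≤ t → SP (p t) := by
    intro t ht
    have h1 : ContDiffOn ℝ ∞ (fun z : ℝ × V => p z.1 z.2) (Ico 0 (t + 1) ×ˢ univ) :=
      h.smooth_p.mono (prod_mono (fun s hs => hs.1) subset_rfl)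
    exact ⟨contDiff_slice h1 ⟨ht, by linarith⟩, fun j x => h.periodic_p t ht x j⟩
  have hdif : ∀ {f : V → ℝ}, SP f → Differentiable ℝ f := fun hf => hf.smooth.differentiable (by norm_cast)
  refine ⟨?_, ?_, ?_, ?_, ?_, ?_, ?_⟩
  · exact (h.smooth_u.comp hcd.contDiffOn hm).const_smul c
  · exact contDiffOn_const.mul (h.smooth_p.comp hcd.contDiffOn hm)
  · intro t ht x m
    rw [hs, hu _ (hct ht)]
  · intro t ht x m
    rw [hs, hp _ (hct ht)]
  · intro t ht x i
    have h1 := h.momentum (c ^ 2 * t) (hct ht) (c • x) i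
    -- the time derivative
    have e1 : derivWithin (fun s => (c • u (c ^ 2 * s) (c • x)) i) (Ici 0) t =
        c * c ^ 2 * derivWithin (fun s => u s (c • x) i) (Ici 0) (c ^ 2 * t) := by
      have hd : DifferentiableWithinAt ℝ (fun s => u s (c • x) i) (Ici 0) (c ^ 2 * t) := by
        have h2 : ContDiffOn ℝ ∞ (fun z : ℝ × V => u z.1 z.2 i) (Ici 0 ×ˢ univ) := contDiffOn_pi.1 h.smooth_u i
        have h3 : ContDiffOn ℝ ∞ (fun s : ℝ => u s (c • x) i) (Ici 0) :=
          h2.comp (f := fun s : ℝ => ((s, c • x) : ℝ × V)) (contDiff_id.prodMk contDiff_const).contDiffOn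
            (fun s hs => ⟨hs, trivial⟩)
        exact (h3.differentiableOn (by norm_cast)) _ (hct ht)
      have h2 : HasDerivWithinAt (fun s : ℝ => c ^ 2 * s) (c ^ 2) (Ici 0) t := by
        simpa using ((hasDerivAt_id t).const_mul (c ^ 2)).hasDerivWithinAt (s := Ici 0)
      have h3 := HasDerivWithinAt.comp t hd.hasDerivWithinAt h2 (fun s hs => hct hs)
      have h4 := (h3.const_mul c).derivWithin (uniqueDiffOn_Ici 0 t ht)
      have h5 : derivWithin (fun s => (c • u (c ^ 2 * s) (c • x)) i) (Ici 0) t =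
        c * (derivWithin (fun s => u s (c • x) i) (Ici 0) (c ^ 2 * t) * c ^ 2) := h4
      rw [h5]
      ring
    have e2 : ∀ j y, pd j (fun y => (c • u (c ^ 2 * t) (c • y)) i) y =
        c * c * pd j (fun y => u (c ^ 2 * t) y i) (c • y) := fun j y =>
      pd_scale (hdif (spu (hct ht) i)) c c j y
    have e3 : ∀ j, pd j (pd j fun y => (c • u (c ^ 2 * t) (c • y)) i) x =
        c * c * c * pd j (pd j fun y => u (c ^ 2 * t) y i) (c • x) := by
      intro j
      have e4 : (pd j fun y => (c • u (c ^ 2 * t) (c • y)) i) = fun y =>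
          (c * c) * pd j (fun y => u (c ^ 2 * t) y i) (c • y) := funext (e2 j)
      rw [e4]
      exact pd_scale (hdif ((spu (hct ht) i).pd j)) (c * c) c j x
    have e5 : pd i (fun y => c ^ 2 * p (c ^ 2 * t) (c • y)) x = c ^ 2 * c * pd i (p (c ^ 2 * t)) (c • x) :=
      pd_scale (hdif (spp (hct ht))) (c ^ 2) c i x
    have h2 : derivWithin (fun s => (c • u (c ^ 2 * s) (c • x)) i) (Ici 0) t
        + ∑ j, (c • u (c ^ 2 * t) (c • x)) j * pd j (fun y => (c • u (c ^ 2 * t) (c • y)) i) x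
        = ν * ∑ j, pd j (pd j fun y => (c • u (c ^ 2 * t) (c • y)) i) x
          - pd i (fun y => c ^ 2 * p (c ^ 2 * t) (c • y)) x := by
      rw [e1, e5]
      simp only [e2, e3]
      simp only [Pi.smul_apply, smul_eq_mul]
      simp only [Fin.sum_univ_three] at h1 ⊢
      linear_combination c ^ 3 * h1
    exact h2
  · intro t ht x
    have h1 := h.divFree (c ^ 2 * t) (hct ht) (c • x)
    have e2 : ∀ j, pd j (fun y => (c • u (c ^ 2 * t) (c • y)) j) x =
        c * c * pd j (fun y => u (c ^ 2 * t) y j) (c • x) := fun j =>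
      pd_scale (hdif (spu (hct ht) j)) c c j x
    have h2 : ∑ i, pd i (fun y => (c • u (c ^ 2 * t) (c • y)) i) x = 0 := by
      simp only [e2]
      rw [← Finset.mul_sum, h1, mul_zero]
    exact h2
  · funext x
    rw [mul_zero, h.initial]

/-! ### the theorem -/

/-- the multiples of the denominators -/
lemma exists_N (Q : Fin 3 → ℚ) : ∃ N : ℕ, N ≠ 0 ∧ ∀ i, ∃ m : ℤ, (N : ℝ) ^ 2 * (Q i : ℝ) = 2 * m := by
  refine ⟨2 * ∏ i, (Q i).den, ?_, fun i => ?_⟩
  · have : ∏ i, (Q i).den ≠ 0 := Finset.prod_ne_zero_iff.2 fun i _ => (Q i).den_nz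
    omega
  · obtain ⟨d, hd⟩ : (Q i).den ∣ ∏ i, (Q i).den := Finset.dvd_prod_of_mem _ (Finset.mem_univ i)
    refine ⟨2 * (∏ i, (Q i).den : ℕ) * d * (Q i).num, ?_⟩
    have h1 : (Q i : ℝ) * ((Q i).den : ℝ) = ((Q i).num : ℝ) := by
      exact_mod_cast Rat.mul_den_eq_num (Q i)
    obtain ⟨P, hP⟩ : ∃ P : ℕ, P = ∏ i, (Q i).den := ⟨_, rfl⟩
    rw [← hP] at hd ⊢
    have h2 : (P : ℝ) = ((Q i).den : ℝ) * d := by
      rw [hd]
      push_cast
      ring
    push_cast
    linear_combination 4 * (P : ℝ) * (Q i : ℝ) * h2 + 4 * (P : ℝ) * d * h1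

/-- **Rational `Θ`.** If the equations on the noncommutative torus with rational parameters `Q` have global
smooth solutions for all smooth periodic divergence free data, then so do the Navier-Stokes equations. -/
theorem ns_of_rational (Q : Fin 3 → ℚ) {ν : ℝ} (hν : 0 < ν)
    (H : ∀ v : V → V, Data v → ∃ u p, Sol (NC.wt fun i => (Q i : ℝ)) ν v u p)
    (v : V → V) (hv : Data v) : ∃ u p, SolNS ν v u p := by
  obtain ⟨N, hN, hQ⟩ := exists_N Q
  have hN' : (N : ℝ) ≠ 0 := by exact_mod_cast hN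
  set w : V → V := fun x => (N : ℝ) • v ((N : ℝ) • x) with hw
  have hvd : ∀ i, Differentiable ℝ (fun x => v x i) := fun i =>
    (contDiff_pi.1 hv.smooth i).differentiable (by norm_cast)
  have hper : ∀ (k : ℕ) (x : V) (m : Fin 3), v (x + (k : ℝ) • Pi.single m 1) = v x := by
    intro k
    induction k with
    | zero => intro x m; simp
    | succ k ih =>
      intro x m
      have : x + ((k + 1 : ℕ) : ℝ) • (Pi.single m 1 : V) = (x + (k : ℝ) • Pi.single m 1) + Pi.single m 1 := by
        push_cast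
        rw [add_smul, one_smul, add_assoc]
      rw [this, hv.periodic, ih]
  have hwD : Data w := by
    refine ⟨(hv.smooth.comp (contDiff_id.const_smul (N : ℝ))).const_smul (N : ℝ), fun x j => ?_, fun x => ?_⟩
    · simp only [hw]
      rw [smul_add, hper]
    · have h1 := hv.divFree ((N : ℝ) • x)
      have e2 : ∀ j, pd j (fun y => w y j) x = (N : ℝ) * N * pd j (fun y => v y j) ((N : ℝ) • x) := fun j =>
        pd_scale (hvd j) N N j x
      have h2 : ∑ i, pd i (fun y => w y i) x = 0 := by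
        simp only [e2]
        rw [← Finset.mul_sum]
        have h3 : ∑ i, pd i (fun y => v y i) ((N : ℝ) • x) = 0 := h1
        rw [h3, mul_zero]
      exact h2
  obtain ⟨u, p, h⟩ := H w hwD
  have hwp : ∀ m x, w (x + sh N m) = w x := by
    intro m x
    simp only [hw]
    rw [smul_add]
    unfold sh
    rw [← Pi.single_smul, smul_eq_mul, mul_inv_cancel₀ hN', hv.periodic]
  obtain ⟨h1, h2, h3⟩ := sol_rat hN hQ hν h hwp
  have h4 := sol_scale hN h1 h2 h3
  have h5 : (fun x => (N : ℝ)⁻¹ • w ((N : ℝ)⁻¹ • x)) = v := by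
    funext x
    simp only [hw]
    rw [smul_smul, smul_smul, inv_mul_cancel₀ hN', mul_inv_cancel₀ hN', one_smul, one_smul]
  rw [h5] at h4
  exact ⟨_, _, h4⟩

end Pool.Agent.K1H90.NC
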